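import Mathlib
import Pool.Agent.H527.N.N29

/-! For almost all moduli `q`, every pattern of signs occurs for the discrepancies of the primes in many common
residue classes, at the scales `x / q = (log q) ^ B j`. -/

set_option autoImplicit false

namespace Pool.Agent.Results.MP_a78e8f_nt.EverySignPattern

open Finset Filter Topology

/-- the number of primes `p ≤ x` with `p ≡ a` modulo `q` -/
noncomputable def primesInClass (x : ℝ) (q a : ℕ) : ℕ := ((Icc 1 ⌊x⌋₊).filter (fun p => p.Prime ∧ p ≡ a [MOD q])).card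

/-- the residue classes `a` in `(0, q]`, prime to `q`, such that for all `j` and all real `x` with
`q (log q) ^ B j ≤ x ≤ Λ q (log q) ^ B j` the number of primes in the class is at least `(1 + δ) π(x) / φ(q)` if
`s j` is true, and at most `(1 - δ) π(x) / φ(q)` if `s j` is false -/
def patternClasses {J : ℕ} (B : Fin J → ℝ) (s : Fin J → Bool) (δ Λ : ℝ) (q : ℕ) : Set ℕ :=
  {a | 0 < a ∧ a ≤ q ∧ a.Coprime q ∧ ∀ j, ∀ x : ℝ, q * (Real.log q) ^ B j ≤ x →
    x ≤ Λ * (q * (Real.log q) ^ B j) →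
      (s j = true → (1 + δ) * ((Nat.primeCounting ⌊x⌋₊ : ℝ) / Nat.totient q) ≤ (primesInClass x q a : ℝ)) ∧
      (s j = false → (primesInClass x q a : ℝ) ≤ (1 - δ) * ((Nat.primeCounting ⌊x⌋₊ : ℝ) / Nat.totient q))}

theorem result {J : ℕ} (hJ : 0 < J) (B : Fin J → ℝ) (hB1 : ∀ j, 1 < B j) (hB : StrictMono B) (ε : ℝ) (hε : 0 < ε) :
    ∃ δ : ℝ, 0 < δ ∧ ∀ Λ : ℝ, Tendsto (fun X : ℕ => (Set.ncard {q : ℕ | 1 ≤ q ∧ q ≤ X ∧
      ¬ ∀ s : Fin J → Bool, (q : ℝ) * Real.exp (-((Real.log q) ^ ε)) ≤ ((patternClasses B s δ Λ q).ncard : ℝ)} : ℝ) / X)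
      atTop (𝓝 0) := by
  classical
  obtain ⟨δ, hδ, h⟩ := Pool.Agent.H527.N.all_patterns hJ B hB1 hB ε hε
  refine ⟨δ, hδ, fun Λ => ?_⟩
  refine (h Λ).congr fun X => ?_
  congr 2
  have h1 : ∀ (s : Fin J → Bool) (q : ℕ), (patternClasses B s δ Λ q).ncard = (Pool.Agent.H527.N.biased B s δ Λ q).card := by
    intro s q
    rw [← Set.ncard_coe_finset]
    congr 1
    ext a
    unfold patternClasses Pool.Agent.H527.N.biased primesInClass Pool.Agent.H527.N.pc
    rw [Finset.mem_coe, mem_filter, mem_Ioc, Set.mem_setOf_eq, and_assoc]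
  rw [← Set.ncard_coe_finset]
  congr 1
  ext q
  rw [Finset.mem_coe, mem_filter, mem_Icc, Set.mem_setOf_eq, and_assoc]
  unfold Pool.Agent.H527.N.AllPat
  simp_rw [h1]

end Pool.Agent.Results.MP_a78e8f_nt.EverySignPattern
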