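import Mathlib
import Pool.Agent.H532.EH.Final

/-!
# The exact range of the Elliott-Halberstam conjecture in the random sieve model

In the model of Banks, Ford and Tao (Large prime gaps and probabilistic models, Invent. Math. 2023)
the primes are replaced by the random set `R` of the integers `n` which are outside the random
residue class `a_p` modulo `p` for all primes `p ≤ z(n)`, `∏_{p ≤ z(n)} (1 - 1/p) ≈ 1 / log n`.

A residue class `b` modulo `q` is reduced (for `R`) if `b` is not in the removed class modulo any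
prime factor of `q`; this takes the place of the condition that `b` is coprime to `q`. As in the
Elliott-Halberstam conjecture let `E(x; q)` be the largest value of `|R(x; q, b) - R(x) / φ(q)|`
over the reduced classes `b` modulo `q`. Let `t(x) = (loglog x)² / logloglog x`. Almost surely:

1. Let `1 ≤ Q(x) ≤ x`. The Elliott-Halberstam bound `∑_{q ≤ Q(x)} E(x; q) ≤ C_B x / (log x) ^ B` for
all `B` holds if and only if `log (x / Q(x)) / t(x) → ∞`.
2. In particular it holds for `Q(x) = x ^ θ` for all `θ < 1`, and fails for `Q(x) = x`.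
3. For all `B` there is `K` such that `E(x; q) ≤ (x / q) / (log x) ^ B` for every single modulus
`q ≤ x exp(-K t(x))`.
4. For all `K` there is `B` such that `E(x; q) ≥ (x / q) / (log x) ^ B` for every prime modulus
`q ≥ x exp(-K t(x))`, `q ≤ x`.

For the primes, Friedlander and Granville proved that the Elliott-Halberstam bound fails for
`Q(x) = x / (log x) ^ N`, and Friedlander, Granville, Hildebrand and Maier that it fails for
`Q(x) = x exp(-K t(x))` for all `K`. So in the model their range is exact.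
-/

open Finset MeasureTheory ProbabilityTheory Filter
open scoped ENNReal Topology

namespace Pool.Agent.Results.MP_a78e8f_nt.ExactRangeRandomSieve

/-- `A p`, `p` prime, are independent random variables and `A p` is uniformly distributed on
`{0, …, p - 1}`. -/
structure RandomClasses {Ω : Type} [MeasurableSpace Ω] (μ : Measure Ω) (A : ℕ → Ω → ℕ) :
    Prop where
  meas : ∀ p, Measurable (A p)
  indep : iIndepFun (fun p : Nat.Primes => A p) μ
  unif : ∀ p : ℕ, p.Prime → ∀ r < p, μ {ω | A p ω = r} = (p : ℝ≥0∞)⁻¹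

/-- `V z = ∏_{p ≤ z} (1 - 1 / p)`. -/
noncomputable def V (z : ℕ) : ℝ := ∏ p ∈ (range (z + 1)).filter Nat.Prime, (1 - 1 / (p : ℝ))

/-- The integers `n` are sieved by the primes up to `z n`; this leaves the density
`1 / log n`, up to the relative error `O(n ^ (-1/2))`. -/
structure SievingLimit (z : ℕ → ℕ) : Prop where
  mono : Monotone z
  rate : ∃ K : ℝ, ∀ᶠ n : ℕ in atTop, |V (z n) * Real.log n - 1| ≤ K / Real.sqrt n

/-- The sieving limit of Banks, Ford and Tao: the largest `z` with `V z ≥ 1 / log n`. -/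
noncomputable def banksFordTao (n : ℕ) : ℕ := sSup {z : ℕ | 1 / Real.log n ≤ V z}

/-- The random sieve: the integers `n` which are not congruent to `a p` modulo `p`, for all primes
`p ≤ z n`. -/
def sieved (z : ℕ → ℕ) (a : ℕ → ℕ) : Set ℕ :=
  {n | ∀ p : ℕ, p.Prime → p ≤ z n → ¬ n ≡ a p [MOD p]}

/-- The class of `b` modulo `q` is reduced: `b` is not congruent to `a p` modulo `p` for the prime
factors `p` of `q`. -/
def Reduced (a : ℕ → ℕ) (q b : ℕ) : Prop := ∀ p : ℕ, p.Prime → p ∣ q → ¬ b ≡ a p [MOD p]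

/-- `R(x; q, b) = #{n ≤ x : n ≡ b mod q, n ∈ R}`. -/
noncomputable def count (R : Set ℕ) (x q b : ℕ) : ℝ :=
  ({n : ℕ | 1 ≤ n ∧ n ≤ x ∧ n ≡ b [MOD q] ∧ n ∈ R}.ncard : ℝ)

/-- `E(x; q)`: the maximum of `|R(x; q, b) - R(x) / φ(q)|` over the reduced classes `b` modulo
`q`. -/
noncomputable def E (R : Set ℕ) (a : ℕ → ℕ) (x q : ℕ) : ℝ :=
  ⨆ b : {b : ℕ // b < q ∧ Reduced a q b}, |count R x q b - count R x 1 0 / Nat.totient q|

/-- The Elliott-Halberstam bound for the moduli up to `Q x`: for all `B > 0` there is `C` with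
`∑_{q ≤ Q x} E(x; q) ≤ C x / (log x) ^ B` for all `x > 2`. -/
def EH (R : Set ℕ) (a : ℕ → ℕ) (Q : ℕ → ℝ) : Prop :=
  ∀ B : ℝ, 0 < B → ∃ C : ℝ, ∀ x : ℕ, 2 < x →
    ∑ q ∈ Icc 1 ⌊Q x⌋₊, E R a x q ≤ C * (x * Real.log x ^ (-B))

/-- `(loglog x)² / logloglog x`. -/
noncomputable def t (x : ℕ) : ℝ :=
  Real.log (Real.log x) ^ 2 / Real.log (Real.log (Real.log x))

/-- **The exact range of the Elliott-Halberstam conjecture in the random sieve model.** -/
theorem result :
    -- the model exists, the sieving limit of Banks, Ford and Tao is covered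
    (∃ μ : Measure (ℕ → ℕ), IsProbabilityMeasure μ ∧ RandomClasses μ (fun p ω => ω p)) ∧
    SievingLimit banksFordTao ∧
    ∀ (Ω : Type) [MeasurableSpace Ω] (μ : Measure Ω) [IsProbabilityMeasure μ]
      (A : ℕ → Ω → ℕ), RandomClasses μ A → ∀ z : ℕ → ℕ, SievingLimit z → ∀ᵐ ω ∂μ,
      -- 1. the exact range of the Elliott-Halberstam conjecture
      (∀ Q : ℕ → ℝ, (∀ x : ℕ, 1 ≤ x → 1 ≤ Q x ∧ Q x ≤ x) →
        (EH (sieved z (fun p => A p ω)) (fun p => A p ω) Q ↔
          Tendsto (fun x : ℕ => Real.log (x / Q x) / t x) atTop atTop)) ∧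
      -- 2. all `θ < 1`, but not `θ = 1`
      (∀ θ : ℝ, θ < 1 →
        EH (sieved z (fun p => A p ω)) (fun p => A p ω) (fun x => (x : ℝ) ^ θ)) ∧
      ¬ EH (sieved z (fun p => A p ω)) (fun p => A p ω) (fun x => (x : ℝ) ^ (1 : ℝ)) ∧
      -- 3. all moduli `q ≤ x exp (-K t(x))` are regular
      (∀ B : ℝ, 0 < B → ∃ K : ℝ, 0 < K ∧ ∀ᶠ x : ℕ in atTop, ∀ q : ℕ, 1 ≤ q → q ≤ x →
        K * t x ≤ Real.log (x / q) →
        E (sieved z (fun p => A p ω)) (fun p => A p ω) x q ≤ x / q * Real.log x ^ (-B)) ∧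
      -- 4. all prime moduli `q ≥ x exp (-K t(x))` are irregular
      (∀ K : ℝ, 0 < K → ∃ B : ℝ, 0 < B ∧ ∀ᶠ x : ℕ in atTop, ∀ q : ℕ, q.Prime → q ≤ x →
        Real.log (x / q) ≤ K * t x →
        x / q * Real.log x ^ (-B) ≤ E (sieved z (fun p => A p ω)) (fun p => A p ω) x q) := by
  refine ⟨?_, ⟨Pool.Agent.H532.SR.rt_zBFT.mono, Pool.Agent.H532.SR.rt_zBFT.rate⟩, ?_⟩
  · obtain ⟨μ, h1, h2⟩ := Pool.Agent.H532.RM.exists_randomClasses
    exact ⟨μ, h1, ⟨h2.meas, h2.indep, h2.unif⟩⟩
  · intro Ω _ μ _ A hA z hz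
    have hA' : Pool.Agent.H532.RM.RandomClasses μ A := ⟨hA.meas, hA.indep, hA.unif⟩
    have hz' : Pool.Agent.H532.SR.Rt z := ⟨hz.mono, hz.rate⟩
    filter_upwards [Pool.Agent.H532.EH.eh_as hA' hz'] with ω hω
    obtain ⟨h1, h2, h3, h4⟩ := hω
    have h1' : ∀ Q : ℕ → ℝ, (∀ x : ℕ, 1 ≤ x → 1 ≤ Q x ∧ Q x ≤ x) →
        (EH (sieved z (fun p => A p ω)) (fun p => A p ω) Q ↔
          Tendsto (fun x : ℕ => Real.log (x / Q x) / t x) atTop atTop) := by
      intro Q hQ
      have e : (fun x : ℕ => Real.log (x / Q x) / t x) = fun x : ℕ =>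
          Real.log (x / Q x) * Real.log (Real.log (Real.log x)) / Real.log (Real.log x) ^ 2 := by
        funext x
        unfold t
        rw [div_div_eq_mul_div]
      rw [e]
      exact h1 Q hQ
    refine ⟨h1', h2, ?_, h3, h4⟩
    rw [h1' _ (fun x hx => ?_)]
    · intro hT
      have h5 := (hT.eventually_ge_atTop 1).and (eventually_ge_atTop 1)
      obtain ⟨x, hx, hx1⟩ := h5.exists
      have hx0 : (x : ℝ) ≠ 0 := by
        have : x ≠ 0 := by omega
        exact_mod_cast this
      rw [Real.rpow_one, div_self hx0, Real.log_one, zero_div] at hx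
      linarith
    · rw [Real.rpow_one]
      exact ⟨by exact_mod_cast hx, le_rfl⟩

end Pool.Agent.Results.MP_a78e8f_nt.ExactRangeRandomSieve
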