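import Mathlib
import Pool.Agent.H527.F.F11

/-! One residue `a` is irregular, with prescribed signs, for almost all the moduli of several ranges near `x`. -/

set_option autoImplicit false

namespace Pool.Agent.Results.MP_a78e8f_nt.OneClassAlmostAllModuli

open Finset Filter Topology

/-- the number of primes `p ≤ x` with `p ≡ a` modulo `q` -/
noncomputable def primesInClass (x : ℝ) (q a : ℕ) : ℕ := ((Icc 1 ⌊x⌋₊).filter (fun p => p.Prime ∧ p ≡ a [MOD q])).card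

/-- the moduli `q` in `(Q, 2 Q]` which are coprime to `a`, where `Q` is the integer part of `X / (log X) ^ b` -/
def moduli (b : ℝ) (X a : ℕ) : Set ℕ :=
  {q | ⌊(X : ℝ) / (Real.log X) ^ b⌋₊ < q ∧ q ≤ 2 * ⌊(X : ℝ) / (Real.log X) ^ b⌋₊ ∧ a.Coprime q}

/-- for all real `y` with `X ≤ y ≤ Λ X` the number of primes `p ≤ y` in the class `a` modulo `q` is at least
`(1 + δ) π(y) / φ(q)` if `b` is true, and at most `(1 - δ) π(y) / φ(q)` if `b` is false -/
def Irregular (X : ℕ) (Λ δ : ℝ) (b : Bool) (q a : ℕ) : Prop :=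
  ∀ y : ℝ, (X : ℝ) ≤ y → y ≤ Λ * X →
    (b = true → (1 + δ) * ((Nat.primeCounting ⌊y⌋₊ : ℝ) / Nat.totient q) ≤ (primesInClass y q a : ℝ)) ∧
    (b = false → (primesInClass y q a : ℝ) ≤ (1 - δ) * ((Nat.primeCounting ⌊y⌋₊ : ℝ) / Nat.totient q))

/-- the residues `a` in `(0, A]` such that for all `j` the set `moduli (B j) X a` has at least `Q / 100` elements, with
`Q` the integer part of `X / (log X) ^ B j`, and at most a proportion `η` of them is not irregular in the sense `s j` -/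
def goodResidues {J : ℕ} (B : Fin J → ℝ) (s : Fin J → Bool) (X A : ℕ) (δ Λ η : ℝ) : Set ℕ :=
  {a | 0 < a ∧ a ≤ A ∧ ∀ j, (⌊(X : ℝ) / (Real.log X) ^ B j⌋₊ : ℝ) / 100 ≤ ((moduli (B j) X a).ncard : ℝ) ∧
    (Set.ncard {q | q ∈ moduli (B j) X a ∧ ¬ Irregular X Λ δ (s j) q a} : ℝ) ≤ η * ((moduli (B j) X a).ncard : ℝ)}

theorem result {J : ℕ} (B : Fin J → ℝ) (hB1 : ∀ j, 1 < B j) (hB : StrictMono B) (ε : ℝ) (hε : 0 < ε) :
    ∃ c : ℝ, 0 < c ∧ ∃ δ : ℝ, 0 < δ ∧ ∀ Λ η : ℝ, 0 < η → ∀ᶠ X : ℕ in atTop,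
      ∀ A : ℕ, (X : ℝ) * Real.exp (-((Real.log X) ^ c)) ≤ A → (∀ j, A ≤ ⌊(X : ℝ) / (Real.log X) ^ B j⌋₊) →
      ∀ s : Fin J → Bool,
        (A : ℝ) * Real.exp (-((Real.log X) ^ ε)) ≤ ((goodResidues B s X A δ Λ η).ncard : ℝ) := by
  classical
  obtain ⟨c, hc, δ, hδ, h⟩ := Pool.Agent.H527.F.all_patternsA B hB1 hB ε hε
  refine ⟨c, hc, δ, hδ, fun Λ η hη => ?_⟩
  filter_upwards [h Λ η hη] with X hX A hA hAQ s
  refine (hX A hA hAQ s).trans (le_of_eq ?_)
  have h1 : ∀ (b : ℝ) (a : ℕ), (moduli b X a).ncard =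
      ((Ioc (Pool.Agent.H527.F.Qx b X) (2 * Pool.Agent.H527.F.Qx b X)).filter (fun q => a.Coprime q)).card := by
    intro b a
    rw [← Set.ncard_coe_finset]
    congr 1
    ext q
    unfold moduli Pool.Agent.H527.F.Qx
    rw [Finset.mem_coe, mem_filter, mem_Ioc, Set.mem_ofPred_eq, and_assoc]
  have h2 : ∀ (b : ℝ) (σ : Bool) (a : ℕ), Set.ncard {q | q ∈ moduli b X a ∧ ¬ Irregular X Λ δ σ q a} =
      ((Ioc (Pool.Agent.H527.F.Qx b X) (2 * Pool.Agent.H527.F.Qx b X)).filter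
        (fun q => a.Coprime q ∧ ¬ Pool.Agent.H527.F.Dev X Λ δ σ q a)).card := by
    intro b σ a
    rw [← Set.ncard_coe_finset]
    congr 1
    ext q
    unfold moduli Irregular primesInClass Pool.Agent.H527.F.Dev Pool.Agent.H527.N.pc Pool.Agent.H527.F.Qx
    rw [Finset.mem_coe, mem_filter, mem_Ioc, Set.mem_ofPred_eq, Set.mem_ofPred_eq, and_assoc, and_assoc, and_assoc]
  rw [← Set.ncard_coe_finset]
  congr 2
  ext a
  unfold goodResidues
  rw [Finset.mem_coe, mem_filter, mem_Ioc, Set.mem_ofPred_eq, and_assoc]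
  refine and_congr_right fun _ => and_congr_right fun _ => ?_
  unfold Pool.Agent.H527.F.GoodA
  refine forall_congr' fun j => ?_
  rw [h1, h2]
  rfl

end Pool.Agent.Results.MP_a78e8f_nt.OneClassAlmostAllModuli
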